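import Pool.Agent.W739.CY.Stm

/-!
Project CY (helper739), part D3: the 2-dependent 3-coloring.
-/

set_option autoImplicit false
set_option linter.unusedSectionVars false

namespace Pool.Agent.W304.CY

open Pool.Agent.W739.CY

section basics

variable {C : Type} [DecidableEq C]

/-- sum over all deletions of a letter -/
def D : (List C → ℝ) → List C → ℝ
  | _, [] => 0
  | f, x :: w => f w + D (fun t => f (x :: t)) w

/-- sum over all deletions of a repeated letter -/
def R : (List C → ℝ) → List C → ℝ
  | _, [] => 0
  | _, [_] => 0
  | f, x :: y :: w => (if x = y then f (y :: w) else 0) + R (fun t => f (x :: t)) (y :: w)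

theorem D_append (v : List C) : ∀ (u : List C) (f : List C → ℝ),
    D f (u ++ v) = D (fun t => f (t ++ v)) u + D (fun t => f (u ++ t)) v
  | [], f => by simp [D]
  | x :: u, f => by
      simp only [List.cons_append, D]
      rw [D_append v u]
      ring

theorem R_append (x : C) (v : List C) : ∀ (u : List C) (f : List C → ℝ),
    R f (u ++ x :: v) = R (fun t => f (t ++ x :: v)) u +
      (if u.getLast? = some x then f (u ++ v) else 0) + R (fun t => f (u ++ t)) (x :: v)
  | [], f => by simp [R]
  | [a], f => by
      simp only [List.cons_append, List.nil_append, R, List.getLast?_singleton,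
        Option.some.injEq, zero_add]
      by_cases h : a = x
      · subst h; simp
      · simp [h]
  | a :: b :: u, f => by
      have h := R_append x v (b :: u) (fun t => f (a :: t))
      simp only [List.cons_append] at h
      simp only [List.cons_append, R, List.getLast?_cons_cons]
      rw [h]
      ring

theorem D_congr : ∀ (w : List C) (f g : List C → ℝ)
    (_ : ∀ t : List C, t.length + 1 = w.length → f t = g t), D f w = D g w
  | [], _, _, _ => rfl
  | x :: w, f, g, h => by
      simp only [D]
      rw [h w (by simp), D_congr w (fun t => f (x :: t)) (fun t => g (x :: t))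
        (fun t ht => h (x :: t) (by simp [ht]))]

theorem R_congr : ∀ (w : List C) (f g : List C → ℝ)
    (_ : ∀ t : List C, t.length + 1 = w.length → f t = g t), R f w = R g w
  | [], _, _, _ => rfl
  | [_], _, _, _ => rfl
  | x :: y :: w, f, g, h => by
      simp only [R]
      rw [h (y :: w) (by simp), R_congr (y :: w) (fun t => f (x :: t)) (fun t => g (x :: t))
        (fun t ht => h (x :: t) (by simp [ht]))]

theorem D_zero : ∀ (w : List C), D (fun _ => 0) w = 0
  | [] => rfl
  | x :: w => by simp only [D]; rw [D_zero w]; simp

theorem R_zero : ∀ (w : List C), R (fun _ => 0) w = 0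
  | [] => rfl
  | [_] => rfl
  | x :: y :: w => by simp only [R]; rw [R_zero (y :: w)]; simp

theorem D_mul (c : ℝ) : ∀ (w : List C) (f : List C → ℝ), D (fun t => c * f t) w = c * D f w
  | [], _ => by simp [D]
  | x :: w, f => by simp only [D]; rw [D_mul c w]; ring

theorem R_mul (c : ℝ) : ∀ (w : List C) (f : List C → ℝ), R (fun t => c * f t) w = c * R f w
  | [], _ => by simp [R]
  | [_], _ => by simp [R]
  | x :: y :: w, f => by
      simp only [R]; rw [R_mul c (y :: w)]
      split_ifs <;> ring

theorem D_sum {ι : Type} [Fintype ι] : ∀ (w : List C) (f : ι → List C → ℝ),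
    D (fun t => ∑ i, f i t) w = ∑ i, D (f i) w
  | [], _ => by simp [D]
  | x :: w, f => by
      simp only [D]; rw [D_sum w (fun i t => f i (x :: t)), Finset.sum_add_distrib]

theorem R_sum {ι : Type} [Fintype ι] : ∀ (w : List C) (f : ι → List C → ℝ),
    R (fun t => ∑ i, f i t) w = ∑ i, R (f i) w
  | [], _ => by simp [R]
  | [_], _ => by simp [R]
  | x :: y :: w, f => by
      simp only [R]; rw [R_sum (y :: w) (fun i t => f i (x :: t)), Finset.sum_add_distrib]
      split_ifs <;> simp

theorem D_nonneg : ∀ (w : List C) (f : List C → ℝ) (_ : ∀ t, 0 ≤ f t), 0 ≤ D f w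
  | [], _, _ => le_refl _
  | x :: w, f, h => by
      simp only [D]
      exact add_nonneg (h _) (D_nonneg w _ (fun t => h _))

theorem D_map (σ : Equiv.Perm C) : ∀ (w : List C) (f : List C → ℝ),
    D f (w.map σ) = D (fun t => f (t.map σ)) w
  | [], _ => rfl
  | x :: w, f => by
      simp only [List.map_cons, D]
      rw [D_map σ w]

/-- the linear operator -/
noncomputable def L (f : List C → ℝ) (w : List C) : ℝ := D f w - 2 * R f w

theorem L_congr (w : List C) (f g : List C → ℝ)
    (h : ∀ t : List C, t.length + 1 = w.length → f t = g t) : L f w = L g w := by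
  unfold L; rw [D_congr w f g h, R_congr w f g h]

theorem L_mul (c : ℝ) (w : List C) (f : List C → ℝ) : L (fun t => c * f t) w = c * L f w := by
  unfold L; rw [D_mul, R_mul]; ring

theorem L_sum {ι : Type} [Fintype ι] (w : List C) (f : ι → List C → ℝ) :
    L (fun t => ∑ i, f i t) w = ∑ i, L (f i) w := by
  unfold L; rw [D_sum, R_sum, Finset.sum_sub_distrib, Finset.mul_sum]

theorem L_append (x : C) (u v : List C) (f : List C → ℝ) :
    L f (u ++ x :: v) = L (fun t => f (t ++ x :: v)) u -
      2 * (if u.getLast? = some x then f (u ++ v) else 0) + L (fun t => f (u ++ t)) (x :: v) := by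
  unfold L; rw [D_append, R_append]; ring

theorem L_single (x : C) (f : List C → ℝ) : L f [x] = f [] := by
  simp [L, D, R]

theorem L_cons (x y : C) (w : List C) (f : List C → ℝ) :
    L f (x :: y :: w) = f (y :: w) - 2 * (if x = y then f (y :: w) else 0) +
      L (fun t => f (x :: t)) (y :: w) := by
  simp only [L, D, R]; ring

theorem R_chain : ∀ (w : List C) (f : List C → ℝ) (_ : w.IsChain (· ≠ ·)), R f w = 0
  | [], _, _ => rfl
  | [_], _, _ => rfl
  | x :: y :: w, f, h => by
      simp only [R]
      rw [List.isChain_cons_cons] at h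
      rw [if_neg h.1, R_chain (y :: w) _ h.2, add_zero]

theorem not_chain : ∀ (w : List C) (_ : ¬ w.IsChain (· ≠ ·)),
    ∃ (u : List C) (x : C) (v : List C), w = u ++ x :: x :: v
  | [], h => absurd (by simp) h
  | [_], h => absurd (by simp) h
  | x :: y :: w, h => by
      rw [List.isChain_cons_cons] at h
      by_cases hxy : x = y
      · subst hxy
        exact ⟨[], x, w, rfl⟩
      · have h' : ¬ (y :: w).IsChain (· ≠ ·) := fun h1 => h ⟨hxy, h1⟩
        obtain ⟨u, z, v, he⟩ := not_chain (y :: w) h'
        exact ⟨x :: u, z, v, by rw [he]; rfl⟩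

theorem not_chain' (u : List C) (x : C) (v : List C) :
    ¬ (u ++ x :: x :: v).IsChain (· ≠ ·) := by
  intro h
  have h2 := (List.isChain_append.1 h).2.1
  rw [List.isChain_cons_cons] at h2
  exact h2.1 rfl

/-- if `f` vanishes on improper words then `L f` vanishes on improper words -/
theorem L_improper (f : List C → ℝ) (hf : ∀ t : List C, ¬ t.IsChain (· ≠ ·) → f t = 0)
    (w : List C) (hw : ¬ w.IsChain (· ≠ ·)) : L f w = 0 := by
  obtain ⟨u, x, v, rfl⟩ := not_chain w hw
  have h1 : L (fun t => f (t ++ x :: x :: v)) u = 0 := by
    have : (fun t => f (t ++ x :: x :: v)) = fun _ => 0 := by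
      funext t; exact hf _ (not_chain' _ _ _)
    rw [this]; unfold L; rw [D_zero, R_zero]; ring
  have h2 : (if u.getLast? = some x then f (u ++ x :: v) else 0) = 0 := by
    split_ifs with h
    · obtain ⟨u', rfl⟩ : ∃ u', u = u' ++ [x] := by
        rw [List.getLast?_eq_some_iff] at h
        exact h
      apply hf
      rw [List.append_assoc]
      exact not_chain' _ _ _
    · rfl
  rw [L_append, h1, h2, L_cons, if_pos rfl]
  have h3 : L (fun t => f (u ++ x :: t)) (x :: v) = f (u ++ x :: v) := by
    cases v with
    | nil => rw [L_single]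
    | cons y v =>
      rw [L_cons]
      have h4 : (if x = y then f (u ++ x :: y :: v) else 0) = 0 := by
        split_ifs with h
        · subst h; exact hf _ (not_chain' _ _ _)
        · rfl
      rw [h4]
      have h5 : (fun t => f (u ++ x :: x :: t)) = fun _ => 0 := by
        funext t; exact hf _ (not_chain' _ _ _)
      rw [h5]; unfold L; rw [D_zero, R_zero]; ring
  rw [h3]; ring

/-- auxiliary building function -/
noncomputable def Bn : ℕ → List C → ℝ
  | 0, _ => 1
  | n + 1, w => if w.IsChain (· ≠ ·) then D (Bn n) w else 0

/-- the building function -/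
noncomputable def B (w : List C) : ℝ := Bn w.length w

theorem B_cons (x : C) (w : List C) :
    B (x :: w) = if (x :: w).IsChain (· ≠ ·) then D B (x :: w) else 0 := by
  unfold B
  rw [List.length_cons]
  simp only [Bn]
  split_ifs with h
  · apply D_congr
    intro t ht
    rw [List.length_cons] at ht
    have : t.length = w.length := by omega
    rw [this]
  · rfl

theorem B_nil : B ([] : List C) = 1 := rfl

theorem B_improper (w : List C) (hw : ¬ w.IsChain (· ≠ ·)) : B w = 0 := by
  cases w with
  | nil => exact absurd (by simp) hw
  | cons x w => rw [B_cons, if_neg hw]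

theorem B_lin (w : List C) (hw : w ≠ []) : B w = L B w := by
  by_cases h : w.IsChain (· ≠ ·)
  · cases w with
    | nil => exact absurd rfl hw
    | cons x w =>
      rw [B_cons, if_pos h]; unfold L; rw [R_chain _ _ h]; ring
  · rw [B_improper w h, L_improper B B_improper w h]

theorem B_single (x : C) : B [x] = 1 := by
  rw [B_cons, if_pos (by simp)]
  simp [D, B_nil]

/-- cyclically proper words -/
def CP : List C → Prop
  | [] => True
  | x :: w => (x :: (w ++ [x])).IsChain (· ≠ ·)

instance decCP : ∀ w : List C, Decidable (CP w)
  | [] => isTrue trivial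
  | x :: w => by unfold CP; infer_instance

theorem CP_rot (x : C) (w : List C) : CP (x :: w) ↔ CP (w ++ [x]) := by
  cases w with
  | nil => rfl
  | cons y w =>
    show (x :: y :: (w ++ [x])).IsChain (· ≠ ·) ↔ (y :: (w ++ [x] ++ [y])).IsChain (· ≠ ·)
    rw [List.isChain_cons_cons]
    have : y :: (w ++ [x] ++ [y]) = (y :: w) ++ x :: [y] := by simp
    rw [this, List.isChain_append_cons_cons]
    simp
    tauto

theorem CP_chain (w : List C) (h : CP w) : w.IsChain (· ≠ ·) := by
  cases w with
  | nil => simp
  | cons x w =>
    have h' : ((x :: w) ++ [x]).IsChain (· ≠ ·) := h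
    exact (List.isChain_append.1 h').1

theorem CP_map (σ : Equiv.Perm C) (w : List C) : CP (w.map σ) ↔ CP w := by
  cases w with
  | nil => rfl
  | cons x w =>
    show (σ x :: (w.map σ ++ [σ x])).IsChain (· ≠ ·) ↔ (x :: (w ++ [x])).IsChain (· ≠ ·)
    have : σ x :: (w.map σ ++ [σ x]) = (x :: (w ++ [x])).map σ := by simp
    rw [this, List.isChain_map]
    simp [List.isChain_iff_getElem]

/-- auxiliary cyclic building function -/
noncomputable def Bcn : ℕ → List C → ℝ
  | 0, w => if CP w then 1 else 0
  | n + 1, w => if CP w then D (Bcn n) w else 0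

/-- the cyclic building function -/
noncomputable def Bc (w : List C) : ℝ := Bcn (w.length - 2) w

theorem Bcn_improper (n : ℕ) (w : List C) (hw : ¬ CP w) : Bcn n w = 0 := by
  cases n with
  | zero => simp only [Bcn]; rw [if_neg hw]
  | succ n => simp only [Bcn]; rw [if_neg hw]

theorem Bc_improper (w : List C) (hw : ¬ CP w) : Bc w = 0 := Bcn_improper _ w hw

theorem Bcn_nonneg : ∀ (n : ℕ) (w : List C), 0 ≤ Bcn n w
  | 0, w => by simp only [Bcn]; split_ifs <;> norm_num
  | n + 1, w => by
      simp only [Bcn]; split_ifs
      · exact D_nonneg _ _ (fun t => Bcn_nonneg n t)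
      · exact le_refl _

theorem Bcn_map (σ : Equiv.Perm C) : ∀ (n : ℕ) (w : List C), Bcn n (w.map σ) = Bcn n w
  | 0, w => by simp only [Bcn, CP_map]
  | n + 1, w => by
      simp only [Bcn, CP_map]
      rw [D_map]
      simp only [Bcn_map σ n]

theorem Bcn_rot : ∀ (n : ℕ) (x : C) (w : List C), Bcn n (x :: w) = Bcn n (w ++ [x])
  | 0, x, w => by simp only [Bcn, CP_rot]
  | n + 1, x, w => by
      simp only [Bcn, CP_rot]
      rw [D_append]
      simp only [D, Bcn_rot n x, List.append_nil, add_zero]
      congr 1
      ring

theorem Bc_rot (x : C) (w : List C) : Bc (x :: w) = Bc (w ++ [x]) := by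
  unfold Bc
  rw [Bcn_rot]
  simp

theorem Bc_proper (w : List C) (hl : 3 ≤ w.length) (hw : CP w) : Bc w = D Bc w := by
  unfold Bc
  obtain ⟨n, hn⟩ : ∃ n, w.length = n + 3 := ⟨w.length - 3, by omega⟩
  rw [hn]
  have : n + 3 - 2 = n + 1 := by omega
  rw [this]
  simp only [Bcn]
  rw [if_pos hw]
  apply D_congr
  intro t ht
  have : t.length - 2 = n := by omega
  rw [this]

theorem Bc_lin (c y : C) (m : List C) (hm : m ≠ []) :
    Bc (c :: (m ++ [y])) = L Bc (c :: (m ++ [y])) - 2 * (if c = y then Bc (c :: m) else 0) := by
  have hl : 3 ≤ (c :: (m ++ [y])).length := by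
    have := List.length_pos_iff.2 hm
    simp; omega
  by_cases hch : (c :: (m ++ [y])).IsChain (· ≠ ·)
  · by_cases hcy : c = y
    · subst hcy
      have hn : ∀ t : List C, ¬ CP (c :: (t ++ [c])) := by
        intro t ht
        have ht' : ((c :: t) ++ c :: c :: []).IsChain (· ≠ ·) := by
          have : c :: (t ++ [c] ++ [c]) = (c :: t) ++ c :: c :: [] := by simp
          rw [← this]; exact ht
        exact not_chain' _ _ _ ht'
      rw [Bc_improper _ (hn m), if_pos rfl]
      unfold L
      rw [R_chain _ _ hch]
      simp only [D]
      rw [D_append]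
      simp only [D, List.append_nil, add_zero]
      have h0 : D (fun t => Bc (c :: (t ++ [c]))) m = 0 := by
        have : (fun t => Bc (c :: (t ++ [c]))) = fun _ => 0 := by
          funext t; exact Bc_improper _ (hn t)
        rw [this, D_zero]
      rw [h0, Bc_rot c m]; ring
    · have hcp : CP (c :: (m ++ [y])) := by
        show (c :: (m ++ [y] ++ [c])).IsChain (· ≠ ·)
        have : c :: (m ++ [y] ++ [c]) = (c :: m) ++ y :: c :: [] := by simp
        rw [this, List.isChain_append_cons_cons]
        refine ⟨?_, Ne.symm hcy, by simp⟩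
        simpa using hch
      rw [Bc_proper _ hl hcp, if_neg hcy]
      unfold L
      rw [R_chain _ _ hch]; ring
  · have hcp : ¬ CP (c :: (m ++ [y])) := fun h => hch (CP_chain _ h)
    rw [Bc_improper _ hcp, L_improper Bc (fun t ht => Bc_improper t (fun h => ht (CP_chain _ h))) _ hch]
    split_ifs with hcy
    · subst hcy
      have : Bc (c :: m) = 0 := Bc_improper _ hch
      rw [this]; ring
    · ring

end basics

/-! ### the stars -/

theorem sum_last (u : List (Fin 3)) (hu : u ≠ []) (z : ℝ) :
    ∑ x : Fin 3, (if u.getLast? = some x then z else 0) = z := by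
  obtain ⟨l, hl⟩ : ∃ l, u.getLast? = some l := ⟨u.getLast hu, List.getLast?_eq_some_getLast hu⟩
  rw [hl]
  simp

theorem star_r : ∀ (n : ℕ) (u : List (Fin 3)), u.length = n →
    ∑ x : Fin 3, B (u ++ [x]) = ((u.length : ℝ) + 3) * B u := by
  intro n
  induction n with
  | zero =>
    intro u hu
    rw [List.length_eq_zero_iff] at hu
    subst hu
    simp [B_single, B_nil]
  | succ n ih =>
    intro u hu
    have hne : u ≠ [] := by rintro rfl; simp at hu
    have h1 : ∀ x : Fin 3, B (u ++ [x]) = L (fun t => B (t ++ [x])) u -
        2 * (if u.getLast? = some x then B u else 0) + B u := by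
      intro x
      rw [B_lin (u ++ [x]) (by simp), L_append, L_single, List.append_nil]
    simp_rw [h1]
    rw [Finset.sum_add_distrib, Finset.sum_sub_distrib, ← Finset.mul_sum, sum_last u hne, ← L_sum]
    have h2 : L (fun t => ∑ x : Fin 3, B (t ++ [x])) u = ((u.length : ℝ) + 2) * B u := by
      rw [B_lin u hne, ← L_mul]
      apply L_congr
      intro t ht
      rw [ih t (by omega), ← ht]
      push_cast
      ring
    rw [h2]
    simp
    ring

theorem star_l : ∀ (n : ℕ) (u : List (Fin 3)), u.length = n →
    ∑ x : Fin 3, B (x :: u) = ((u.length : ℝ) + 3) * B u := by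
  intro n
  induction n with
  | zero =>
    intro u hu
    rw [List.length_eq_zero_iff] at hu
    subst hu
    simp [B_single, B_nil]
  | succ n ih =>
    intro u hu
    cases u with
    | nil => simp at hu
    | cons y u =>
      have h1 : ∀ x : Fin 3, B (x :: y :: u) = B (y :: u) -
          2 * (if x = y then B (y :: u) else 0) + L (fun t => B (x :: t)) (y :: u) := by
        intro x
        rw [B_lin (x :: y :: u) (by simp), L_cons]
      simp_rw [h1]
      rw [Finset.sum_add_distrib, Finset.sum_sub_distrib, ← Finset.mul_sum, ← L_sum]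
      have h2 : L (fun t => ∑ x : Fin 3, B (x :: t)) (y :: u) =
          (((y :: u).length : ℝ) + 2) * B (y :: u) := by
        rw [B_lin (y :: u) (by simp), ← L_mul]
        apply L_congr
        intro t ht
        rw [ih t (by omega), ← ht]
        push_cast
        ring
      rw [h2]
      simp
      ring

theorem star2_r (u : List (Fin 3)) :
    ∑ x : Fin 3, ∑ y : Fin 3, B (u ++ [x, y]) =
      ((u.length : ℝ) + 4) * (((u.length : ℝ) + 3) * B u) := by
  have h : ∀ x : Fin 3, ∑ y : Fin 3, B (u ++ [x, y]) =
      ((u.length : ℝ) + 4) * B (u ++ [x]) := by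
    intro x
    have := star_r _ (u ++ [x]) rfl
    simp only [List.append_assoc, List.cons_append, List.nil_append, List.length_append,
      List.length_cons, List.length_nil] at this
    rw [this]; push_cast; ring
  simp_rw [h]
  rw [← Finset.mul_sum, star_r _ u rfl]

theorem star2_l (v : List (Fin 3)) :
    ∑ x : Fin 3, ∑ y : Fin 3, B (x :: y :: v) =
      ((v.length : ℝ) + 4) * (((v.length : ℝ) + 3) * B v) := by
  rw [Finset.sum_comm]
  have h : ∀ y : Fin 3, ∑ x : Fin 3, B (x :: y :: v) =
      ((v.length : ℝ) + 4) * B (y :: v) := by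
    intro y
    rw [star_l _ (y :: v) rfl, List.length_cons]; push_cast; ring
  simp_rw [h]
  rw [← Finset.mul_sum, star_l _ v rfl]

theorem choose_two_real (a : ℕ) : (2 : ℝ) * ((a + 4).choose 2 : ℕ) = (a + 4) * (a + 3) := by
  rw [Nat.cast_choose_two]
  push_cast
  ring

theorem star2 : ∀ (n : ℕ) (u v : List (Fin 3)), u.length + v.length = n →
    ∑ x : Fin 3, ∑ y : Fin 3, B (u ++ x :: y :: v) =
      2 * ((u.length + v.length + 4).choose (u.length + 2) : ℕ) * B u * B v := by
  intro n
  induction n using Nat.strong_induction_on with
  | _ n ih =>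
    intro u v hn
    by_cases hv : v = []
    · subst hv
      rw [star2_r]
      have h := choose_two_real u.length
      have h' : (u.length + ([] : List (Fin 3)).length + 4).choose (u.length + 2) =
          (u.length + 4).choose 2 := by
        rw [List.length_nil, Nat.add_zero]
        rw [← Nat.choose_symm (by omega : u.length + 2 ≤ u.length + 4)]
        congr 1
        omega
      rw [h', h, B_nil]
      ring
    · by_cases hu : u = []
      · subst hu
        simp only [List.nil_append]
        rw [star2_l]
        have h := choose_two_real v.length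
        have h' : (([] : List (Fin 3)).length + v.length + 4).choose
            (([] : List (Fin 3)).length + 2) = (v.length + 4).choose 2 := by
          rw [List.length_nil, Nat.zero_add, Nat.zero_add]
        rw [h', h, B_nil]
        ring
      · obtain ⟨z, v', rfl⟩ := List.exists_cons_of_ne_nil hv
        have h1 : ∀ x y : Fin 3, B (u ++ x :: y :: z :: v') =
            L (fun t => B (t ++ x :: y :: z :: v')) u
            - 2 * (if u.getLast? = some x then B (u ++ y :: z :: v') else 0)
            + (B (u ++ y :: z :: v')
            - 2 * (if x = y then B (u ++ y :: z :: v') else 0)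
            + (B (u ++ x :: z :: v')
            - 2 * (if y = z then B (u ++ x :: z :: v') else 0)
            + L (fun t => B (u ++ x :: y :: t)) (z :: v'))) := by
          intro x y
          rw [B_lin (u ++ x :: y :: z :: v') (by simp), L_append, L_cons, L_cons]
        simp_rw [h1]
        simp only [Finset.sum_add_distrib, Finset.sum_sub_distrib, ← Finset.mul_sum]
        have hM : ∑ x : Fin 3, ∑ y : Fin 3,
            (if u.getLast? = some x then B (u ++ y :: z :: v') else 0) =
            ∑ y : Fin 3, B (u ++ y :: z :: v') := by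
          rw [Finset.sum_comm]
          exact Finset.sum_congr rfl (fun y _ => sum_last u hu _)
        have hL1 : ∑ x : Fin 3, ∑ y : Fin 3, L (fun t => B (t ++ x :: y :: z :: v')) u =
            2 * ((u.length + (z :: v').length + 3).choose (u.length + 1) : ℕ) * B u *
              B (z :: v') := by
          have e1 : ∑ x : Fin 3, ∑ y : Fin 3, L (fun t => B (t ++ x :: y :: z :: v')) u =
              L (fun t => ∑ x : Fin 3, ∑ y : Fin 3, B (t ++ x :: y :: z :: v')) u := by
            rw [L_sum]
            refine Finset.sum_congr rfl (fun x _ => ?_)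
            rw [L_sum]
          rw [e1]
          have e2 : L (fun t => ∑ x : Fin 3, ∑ y : Fin 3, B (t ++ x :: y :: z :: v')) u =
              L (fun t => (2 * ((u.length + (z :: v').length + 3).choose (u.length + 1) : ℕ) *
                B (z :: v') : ℝ) * B t) u := by
            apply L_congr
            intro t ht
            rw [ih (t.length + (z :: v').length) (by omega) t (z :: v') rfl]
            have : (t.length + (z :: v').length + 4).choose (t.length + 2) =
                (u.length + (z :: v').length + 3).choose (u.length + 1) := by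
              congr 1 <;> omega
            rw [this]
            ring
          rw [e2, L_mul, ← B_lin u hu]
          ring
        have hL2 : ∑ x : Fin 3, ∑ y : Fin 3, L (fun t => B (u ++ x :: y :: t)) (z :: v') =
            2 * ((u.length + (z :: v').length + 3).choose (u.length + 2) : ℕ) * B u *
              B (z :: v') := by
          have e1 : ∑ x : Fin 3, ∑ y : Fin 3, L (fun t => B (u ++ x :: y :: t)) (z :: v') =
              L (fun t => ∑ x : Fin 3, ∑ y : Fin 3, B (u ++ x :: y :: t)) (z :: v') := by
            rw [L_sum]
            refine Finset.sum_congr rfl (fun x _ => ?_)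
            rw [L_sum]
          rw [e1]
          have e2 : L (fun t => ∑ x : Fin 3, ∑ y : Fin 3, B (u ++ x :: y :: t)) (z :: v') =
              L (fun t => (2 * ((u.length + (z :: v').length + 3).choose (u.length + 2) : ℕ) *
                B u : ℝ) * B t) (z :: v') := by
            apply L_congr
            intro t ht
            rw [ih (u.length + t.length) (by omega) u t rfl]
            have : (u.length + t.length + 4).choose (u.length + 2) =
                (u.length + (z :: v').length + 3).choose (u.length + 2) := by
              congr 1; omega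
            rw [this]
          rw [e2, L_mul, ← B_lin (z :: v') (by simp)]
        have hX : ∑ x : Fin 3, ∑ y : Fin 3, (if x = y then B (u ++ y :: z :: v') else 0) =
            ∑ y : Fin 3, B (u ++ y :: z :: v') := by
          refine Finset.sum_congr rfl (fun x _ => ?_)
          simp
        have hY : ∑ x : Fin 3, ∑ y : Fin 3, (if y = z then B (u ++ x :: z :: v') else 0) =
            ∑ y : Fin 3, B (u ++ y :: z :: v') := by
          refine Finset.sum_congr rfl (fun x _ => ?_)
          simp
        rw [hM, hL1, hL2, hX, hY]
        have hP : (u.length + (z :: v').length + 4).choose (u.length + 2) =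
            (u.length + (z :: v').length + 3).choose (u.length + 1) +
            (u.length + (z :: v').length + 3).choose (u.length + 2) := by
          rw [Nat.choose_succ_succ]
        rw [hP]
        push_cast
        simp only [Finset.sum_const, Finset.card_univ, Fintype.card_fin, nsmul_eq_mul,
          ← Finset.mul_sum]
        push_cast
        ring

theorem Bc_two (x y : Fin 3) : Bc [x, y] = if x = y then 0 else 1 := by
  by_cases h : x = y
  · subst h
    rw [if_pos rfl]
    apply Bc_improper
    intro hc
    exact not_chain' [] x [x] hc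
  · rw [if_neg h]
    show Bcn 0 [x, y] = 1
    simp only [Bcn]
    rw [if_pos]
    show ([x, y, x] : List (Fin 3)).IsChain (· ≠ ·)
    simp [h, Ne.symm h]

theorem star_c : ∀ (n : ℕ) (w : List (Fin 3)), w.length = n →
    ∑ x : Fin 3, ∑ y : Fin 3, Bc (w ++ [x, y]) = 6 * B w := by
  intro n
  induction n with
  | zero =>
    intro w hw
    rw [List.length_eq_zero_iff] at hw
    subst hw
    simp only [List.nil_append, Bc_two, B_nil, Fin.sum_univ_three]
    simp
    norm_num
  | succ n ih =>
    intro w hw
    cases w with
    | nil => simp at hw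
    | cons c m =>
      have h1 : ∀ x y : Fin 3, Bc (c :: m ++ [x, y]) =
          L (fun t => Bc (t ++ [x, y])) (c :: m)
          - 2 * (if (c :: m).getLast? = some x then Bc (c :: m ++ [y]) else 0)
          + (Bc (c :: m ++ [y]) - 2 * (if x = y then Bc (c :: m ++ [y]) else 0)
          + Bc (c :: m ++ [x]))
          - 2 * (if c = y then Bc (c :: m ++ [x]) else 0) := by
        intro x y
        have e1 : c :: m ++ [x, y] = c :: ((m ++ [x]) ++ [y]) := by simp
        have e2 : c :: ((m ++ [x]) ++ [y]) = (c :: m) ++ x :: [y] := by simp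
        rw [e1, Bc_lin c y (m ++ [x]) (by simp), e2, L_append, L_cons, L_single]
        rfl
      simp_rw [h1]
      simp only [Finset.sum_add_distrib, Finset.sum_sub_distrib, ← Finset.mul_sum]
      have hM : ∑ x : Fin 3, ∑ y : Fin 3,
          (if (c :: m).getLast? = some x then Bc (c :: m ++ [y]) else 0) =
          ∑ y : Fin 3, Bc (c :: m ++ [y]) := by
        rw [Finset.sum_comm]
        exact Finset.sum_congr rfl (fun y _ => sum_last (c :: m) (by simp) _)
      have hX : ∑ x : Fin 3, ∑ y : Fin 3, (if x = y then Bc (c :: m ++ [y]) else 0) =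
          ∑ y : Fin 3, Bc (c :: m ++ [y]) := by
        refine Finset.sum_congr rfl (fun x _ => ?_)
        simp
      have hY : ∑ x : Fin 3, ∑ y : Fin 3, (if c = y then Bc (c :: m ++ [x]) else 0) =
          ∑ y : Fin 3, Bc (c :: m ++ [y]) := by
        refine Finset.sum_congr rfl (fun x _ => ?_)
        simp
      have hL : ∑ x : Fin 3, ∑ y : Fin 3, L (fun t => Bc (t ++ [x, y])) (c :: m) =
          6 * B (c :: m) := by
        have e1 : ∑ x : Fin 3, ∑ y : Fin 3, L (fun t => Bc (t ++ [x, y])) (c :: m) =
            L (fun t => ∑ x : Fin 3, ∑ y : Fin 3, Bc (t ++ [x, y])) (c :: m) := by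
          rw [L_sum]
          refine Finset.sum_congr rfl (fun x _ => ?_)
          rw [L_sum]
        rw [e1, B_lin (c :: m) (by simp), ← L_mul]
        apply L_congr
        intro t ht
        exact ih t (by omega)
      rw [hM, hX, hY, hL]
      simp only [Finset.sum_const, Finset.card_univ, Fintype.card_fin, nsmul_eq_mul,
        ← Finset.mul_sum]
      push_cast
      ring

theorem sum_pi (f : List (Fin 3) → ℝ) :
    ∑ s : Fin 2 → Fin 3, f (List.ofFn s) = ∑ x : Fin 3, ∑ y : Fin 3, f [x, y] := by
  rw [← Fintype.sum_prod_type']
  refine Fintype.sum_equiv (finTwoArrowEquiv (Fin 3)) _ _ (fun s => ?_)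
  simp [finTwoArrowEquiv, List.ofFn_succ]

theorem t_D3 : S_D3 := by
  refine ⟨{
    P := fun w => 2 * B w / ((w.length + 2).factorial : ℕ)
    Cy := fun w => Bc w / (3 * ((w.length).factorial : ℕ))
    P_nil := ?_
    P_star := ?_
    Cy_nonneg := ?_
    Cy_rot := ?_
    Cy_map := ?_
    Cy_proper := ?_
    Cy_star := ?_ }⟩
  · simp [B_nil]
  · intro u v
    rw [sum_pi (fun t => 2 * B (u ++ t ++ v) / (((u ++ t ++ v).length + 2).factorial : ℕ))]
    have h1 : ∀ x y : Fin 3, 2 * B (u ++ [x, y] ++ v) /
        (((u ++ [x, y] ++ v).length + 2).factorial : ℕ) =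
        (2 / ((u.length + v.length + 4).factorial : ℕ) : ℝ) * B (u ++ x :: y :: v) := by
      intro x y
      have e1 : (u ++ [x, y] ++ v).length + 2 = u.length + v.length + 4 := by
        simp; omega
      have e2 : u ++ [x, y] ++ v = u ++ x :: y :: v := by simp
      rw [e1, e2]; ring
    simp_rw [h1]
    simp only [← Finset.mul_sum]
    rw [star2 _ u v rfl]
    have hC : ((u.length + v.length + 4).choose (u.length + 2)) * (u.length + 2).factorial *
        (v.length + 2).factorial = (u.length + v.length + 4).factorial := by
      have h := Nat.choose_mul_factorial_mul_factorial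
        (show u.length + 2 ≤ u.length + v.length + 4 by omega)
      have e : u.length + v.length + 4 - (u.length + 2) = v.length + 2 := by omega
      rw [e] at h
      exact h
    have hC' : ((u.length + v.length + 4).factorial : ℝ) =
        ((u.length + v.length + 4).choose (u.length + 2) : ℕ) * ((u.length + 2).factorial : ℕ) *
        ((v.length + 2).factorial : ℕ) := by
      rw [← hC]; push_cast; ring
    have hc0 : (((u.length + v.length + 4).choose (u.length + 2) : ℕ) : ℝ) ≠ 0 := by
      have := Nat.choose_pos (show u.length + 2 ≤ u.length + v.length + 4 by omega)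
      exact_mod_cast this.ne'
    have ha : (((u.length + 2).factorial : ℕ) : ℝ) ≠ 0 := by
      exact_mod_cast (Nat.factorial_pos _).ne'
    have hb : (((v.length + 2).factorial : ℕ) : ℝ) ≠ 0 := by
      exact_mod_cast (Nat.factorial_pos _).ne'
    rw [hC']
    field_simp
  · intro w
    exact div_nonneg (Bcn_nonneg _ _) (by positivity)
  · intro x w
    show Bc (x :: w) / _ = Bc (w ++ [x]) / _
    rw [Bc_rot]
    simp
  · intro σ w
    show Bc (w.map σ) / _ = Bc w / _
    unfold Bc
    rw [Bcn_map]
    simp
  · intro x w
    show Bc (x :: x :: w) / _ = 0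
    rw [Bc_improper (x :: x :: w) (fun h => not_chain' [] x w (CP_chain _ h))]
    simp
  · intro w hw
    rw [sum_pi (fun t => Bc (w ++ t) / (3 * (((w ++ t).length).factorial : ℕ)))]
    have h1 : ∀ x y : Fin 3, Bc (w ++ [x, y]) / (3 * (((w ++ [x, y]).length).factorial : ℕ)) =
        (1 / (3 * ((w.length + 2).factorial : ℕ)) : ℝ) * Bc (w ++ [x, y]) := by
      intro x y
      have e1 : (w ++ [x, y]).length = w.length + 2 := by simp
      rw [e1]; ring
    simp_rw [h1]
    simp only [← Finset.mul_sum]
    rw [star_c _ w rfl]
    have ha : (((w.length + 2).factorial : ℕ) : ℝ) ≠ 0 := by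
      exact_mod_cast (Nat.factorial_pos _).ne'
    field_simp
    ring

end Pool.Agent.W304.CY
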